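import Pool.Agent.H40E9.K42.Stm

/-!
# Project K42: piece CNT (helper70)
-/

set_option autoImplicit false

namespace Pool.Agent.H40E9.K42

open Finset

theorem t_CNT : S_CNT := by
  intro S N q l hS
  have h1 : ∀ i ∈ range l, S.card ≤ ((range N).filter fun t => t + q * i ∈ S).card + q * l := by
    intro i hi
    have hsub : S ⊆ range (q * l) ∪ ((range N).filter fun t => t + q * i ∈ S).image (· + q * i) := by
      intro s hs
      rw [mem_union, mem_range, mem_image]
      by_cases h : s < q * l
      · exact Or.inl h
      · right
        have hql : q * i ≤ q * l := Nat.mul_le_mul_left q (mem_range.1 hi).le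
        have hsN := mem_range.1 (hS hs)
        refine ⟨s - q * i, ?_, by omega⟩
        rw [mem_filter, mem_range]
        refine ⟨by omega, ?_⟩
        have : s - q * i + q * i = s := by omega
        rw [this]
        exact hs
    calc S.card ≤ _ := card_le_card hsub
      _ ≤ (range (q * l)).card + (((range N).filter fun t => t + q * i ∈ S).image (· + q * i)).card :=
          card_union_le _ _
      _ ≤ q * l + ((range N).filter fun t => t + q * i ∈ S).card := by
          rw [card_range]
          exact Nat.add_le_add_left card_image_le _
      _ = _ := Nat.add_comm _ _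
  have h2 : ∑ t ∈ range N, cnt S q l t = ∑ i ∈ range l, ((range N).filter fun t => t + q * i ∈ S).card := by
    unfold cnt
    simp_rw [card_filter]
    exact sum_comm
  rw [h2]
  have h3 := sum_le_sum h1
  rw [sum_const, card_range, smul_eq_mul, sum_add_distrib, sum_const, card_range, smul_eq_mul] at h3
  exact h3

end Pool.Agent.H40E9.K42
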