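import Pool.Agent.H40E9.K42.Stm

set_option autoImplicit false

namespace Pool.Agent.H40E9.K42

open Finset

namespace FIN

/-- `x` is a difference of two elements -/
def DD (S : Finset ℕ) (x : ℤ) : Prop := ∃ a ∈ S, ∃ b ∈ S, (a : ℤ) - b = x

theorem dd_neg {S : Finset ℕ} {x : ℤ} (h : DD S x) : DD S (-x) := by
  obtain ⟨a, ha, b, hb, h⟩ := h
  exact ⟨b, hb, a, ha, by rw [← h]; ring⟩

theorem dd_no {S : Finset ℕ} (hN : NoW S) {x : ℤ} (h : DD S x) (h' : DD S (x + 42)) : False := by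
  obtain ⟨a, ha, b, hb, h⟩ := h
  obtain ⟨c, hc, d, hd, h'⟩ := h'
  exact hN c hc b hb a ha d hd (by omega)

/-- the residue `r` is in `{ψ, ψ + 2, ψ - 2}` -/
def CC (ψ r : ZMod 7) : Prop := r = ψ ∨ r = ψ + 2 ∨ r = ψ - 2

instance (ψ r : ZMod 7) : Decidable (CC ψ r) := by unfold CC; infer_instance

/-- all differences in the class -/
def Full (S : Finset ℕ) (n : ℕ) (ψ : ZMod 7) : Prop :=
  ∀ j : ℤ, -7 ≤ j → j ≤ 7 → CC ψ (j : ZMod 7) → DD S (n + 7 * j)

theorem chkA : ∀ ψ ψ' : ZMod 7, ψ ≠ ψ' →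
    ∃ r : ZMod 7, (CC ψ r ∨ CC ψ' r) ∧ (CC ψ (r - 1) ∨ CC ψ' (r - 1)) := by decide

theorem chkB : ∀ r : ZMod 7, r + 6 = r - 1 := by decide

theorem chkC : ∀ r : ZMod 7, r = -r → r = 0 := by decide

theorem exists_rep (r : ZMod 7) : ∃ j : ℤ, -6 ≤ j ∧ j ≤ 0 ∧ (j : ZMod 7) = r := by
  refine ⟨-((-r).val : ℤ), ?_, ?_, ?_⟩
  · have := ZMod.val_lt (-r); omega
  · omega
  · push_cast
    rw [ZMod.natCast_val, ZMod.cast_id', id, neg_neg]

theorem key {S : Finset ℕ} (hN : NoW S) (n : ℤ) (ψ ψ' : ZMod 7)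
    (h1 : ∀ j : ℤ, -6 ≤ j → j ≤ 7 → CC ψ (j : ZMod 7) → DD S (n + 7 * j))
    (h2 : ∀ j : ℤ, -6 ≤ j → j ≤ 7 → CC ψ' (j : ZMod 7) → DD S (n + 7 * j)) : ψ = ψ' := by
  by_contra hne
  obtain ⟨r, hr1, hr2⟩ := chkA ψ ψ' hne
  obtain ⟨j, hj1, hj2, rfl⟩ := exists_rep r
  have h3 : DD S (n + 7 * j) := by
    rcases hr1 with h | h
    · exact h1 j hj1 (by omega) h
    · exact h2 j hj1 (by omega) h
  have h4 : ((j + 6 : ℤ) : ZMod 7) = (j : ZMod 7) - 1 := by
    push_cast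
    exact chkB _
  have h5 : DD S (n + 7 * (j + 6)) := by
    rcases hr2 with h | h
    · exact h1 (j + 6) (by omega) (by omega) (by rw [h4]; exact h)
    · exact h2 (j + 6) (by omega) (by omega) (by rw [h4]; exact h)
  refine dd_no hN h3 ?_
  have h6 : n + 7 * j + 42 = n + 7 * (j + 6) := by ring
  rw [h6]
  exact h5

theorem chkD : ∀ ψ r : ZMod 7, CC (ψ + 1) r → CC ψ (r - 1) := by decide

theorem chkE : ∀ ψ r : ZMod 7, CC (-ψ) r → CC ψ (-r) := by decide

theorem step {S : Finset ℕ} (hN : NoW S) {n : ℕ} {ψ ψ' : ZMod 7} (h : Full S n ψ)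
    (h' : Full S (n + 7) ψ') : ψ = ψ' + 1 := by
  refine key hN n ψ (ψ' + 1) (fun j hj1 hj2 hj => h j (by omega) hj2 hj) ?_
  intro j hj1 hj2 hj
  have h1 := h' (j - 1) (by omega) (by omega) (by push_cast; exact chkD _ _ hj)
  have h2 : ((n + 7 : ℕ) : ℤ) + 7 * (j - 1) = n + 7 * j := by push_cast; ring
  rwa [h2] at h1

theorem zero {S : Finset ℕ} (hN : NoW S) {ψ : ZMod 7} (h : Full S 0 ψ) : ψ = 0 := by
  refine chkC ψ (key hN 0 ψ (-ψ) (fun j hj1 hj2 hj => ?_) ?_)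
  · have := h j (by omega) hj2 hj
    rwa [Nat.cast_zero] at this
  · intro j hj1 hj2 hj
    have h1 := h (-j) (by omega) (by omega) (by push_cast; exact chkE _ _ hj)
    have h2 := dd_neg h1
    have h3 : -(((0 : ℕ) : ℤ) + 7 * (-j)) = 0 + 7 * j := by push_cast; ring
    rwa [h3] at h2

/-- a residue class in an interval -/
theorem exists_pos (c : ZMod 7) (j : ℤ) (h1 : -7 ≤ j) (h2 : j ≤ 7) :
    ∃ i i' : ℕ, i < 14 ∧ i' < 14 ∧ (i' : ℤ) = i + j ∧ (i : ZMod 7) = c := by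
  have hv := ZMod.val_lt c
  have hc : ((c.val : ℕ) : ZMod 7) = c := by rw [ZMod.natCast_val, ZMod.cast_id', id]
  rcases le_or_gt 0 j with hj | hj
  · refine ⟨c.val, (c.val + j).toNat, by omega, by omega, by omega, hc⟩
  · refine ⟨c.val + 7, (c.val + 7 + j).toNat, by omega, by omega, by omega, ?_⟩
    push_cast
    rw [hc]
    have : (7 : ZMod 7) = 0 := by decide
    rw [this, add_zero]

theorem full_of {S : Finset ℕ} {t n : ℕ} {φ φ' : ZMod 7}
    (h : ∀ i, i < 14 → (t + 7 * i ∈ S ↔ ((i : ZMod 7) = φ ∨ (i : ZMod 7) = φ + 2)))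
    (h' : ∀ i, i < 14 → (t + n + 7 * i ∈ S ↔ ((i : ZMod 7) = φ' ∨ (i : ZMod 7) = φ' + 2))) :
    Full S n (φ' - φ) := by
  intro j hj1 hj2 hj
  have aux : ∀ c : ZMod 7, (c = φ ∨ c = φ + 2) → (c + (j : ZMod 7) = φ' ∨ c + (j : ZMod 7) = φ' + 2) →
      DD S (n + 7 * j) := by
    intro c hc hcj
    obtain ⟨i, i', hi, hi', hij, rfl⟩ := exists_pos c j hj1 hj2
    have h1 : t + 7 * i ∈ S := (h i hi).2 hc
    have h2 : ((i' : ℕ) : ZMod 7) = (i : ZMod 7) + (j : ZMod 7) := by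
      have := congrArg (fun z : ℤ => (z : ZMod 7)) hij
      simpa using this
    have h3 : t + n + 7 * i' ∈ S := (h' i' hi').2 (by rw [h2]; exact hcj)
    refine ⟨_, h3, _, h1, ?_⟩
    push_cast
    rw [hij]
    ring
  rcases hj with hj | hj | hj
  · exact aux φ (Or.inl rfl) (Or.inl (by rw [hj]; ring))
  · exact aux φ (Or.inl rfl) (Or.inr (by rw [hj]; ring))
  · exact aux (φ + 2) (Or.inr rfl) (Or.inl (by rw [hj]; ring))

/-- the integer `k - 7` is in the union of the class of three and of the differences -/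
def UU (φ φ' : ZMod 7) (k : ℕ) : Prop := CC 3 (k : ZMod 7) ∨
  ∃ i : Fin 8, ∃ i' : Fin 8, (((i : ℕ) : ZMod 7) = φ ∨ ((i : ℕ) : ZMod 7) = φ + 2) ∧
    (((i' : ℕ) : ZMod 7) = φ' ∨ ((i' : ℕ) : ZMod 7) = φ' + 2) ∧ (i' : ℕ) + 7 = i + k

instance (φ φ' : ZMod 7) (k : ℕ) : Decidable (UU φ φ' k) := by unfold UU; infer_instance

theorem chkF : ∀ φ φ' : ZMod 7, φ' ≠ φ + 3 → ∃ k : Fin 9, UU φ φ' (k : ℕ) ∧ UU φ φ' ((k : ℕ) + 6) := by
  decide +kernel

theorem step5 {S : Finset ℕ} (hN : NoW S) {t n : ℕ} (hn : Full S n 3) {φ φ' : ZMod 7}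
    (h : ∀ i, i < 8 → (t + 7 * i ∈ S ↔ ((i : ZMod 7) = φ ∨ (i : ZMod 7) = φ + 2)))
    (h' : ∀ i, i < 8 → (t + n + 7 * i ∈ S ↔ ((i : ZMod 7) = φ' ∨ (i : ZMod 7) = φ' + 2))) :
    φ' = φ + 3 := by
  by_contra hne
  have aux : ∀ k : ℕ, k ≤ 14 → UU φ φ' k → DD S (n + 7 * ((k : ℤ) - 7)) := by
    intro k hk hU
    rcases hU with hU | ⟨i, i', hi, hi', hik⟩
    · refine hn ((k : ℤ) - 7) (by omega) (by omega) ?_
      have h7 : (((k : ℤ) - 7 : ℤ) : ZMod 7) = (k : ZMod 7) := by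
        push_cast
        have : (7 : ZMod 7) = 0 := by decide
        rw [this, sub_zero]
      rw [h7]
      exact hU
    · refine ⟨_, (h' i' i'.2).2 hi', _, (h i i.2).2 hi, ?_⟩
      push_cast
      omega
  obtain ⟨k, hk1, hk2⟩ := chkF φ φ' hne
  have hk := k.2
  have h1 := aux k (by omega) hk1
  have h2 := aux (k + 6) (by omega) hk2
  refine dd_no hN h1 ?_
  have h3 : (n : ℤ) + 7 * (((k : ℕ) : ℤ) - 7) + 42 = n + 7 * ((((k : ℕ) + 6 : ℕ) : ℤ) - 7) := by
    push_cast; ring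
  rw [h3]
  exact h2

end FIN

open FIN in
theorem t_FIN (h1 : S_TWO) (h2 : S_GOOD) (h3 : S_PAT) : S_K42 := by
  intro S N hSN hN hd
  by_contra hcon
  have hNo : NoW S := by
    intro a ha b hb c hc d hd' hab
    exact hcon ⟨a, ha, b, hb, c, hc, d, hd', hab⟩
  have hSep : Sep S := h1 S N hSN hN hd hNo
  -- (1)
  have E1 : ∀ n ≤ 301, ∃ ψ, Full S n ψ := by
    intro n hn
    obtain ⟨t, ht⟩ := h2 S N hSN hN hd hSep
      (((range 8).image fun k => 7 * k) ∪ ((range 8).image fun k => n + 7 * k))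
      (by
        refine (card_union_le _ _).trans ?_
        have e1 := card_image_le (s := range 8) (f := fun k => 7 * k)
        have e2 := card_image_le (s := range 8) (f := fun k => n + 7 * k)
        rw [card_range] at e1 e2
        omega)
      (by
        intro f hf
        rw [mem_union, mem_image, mem_image] at hf
        rcases hf with ⟨k, hk, rfl⟩ | ⟨k, hk, rfl⟩ <;> rw [mem_range] at hk <;> omega)
    obtain ⟨φ, hφ⟩ := h3 S hSep t 14 (by norm_num) (by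
      intro k hk
      exact ht (7 * k) (mem_union_left _ (mem_image.2 ⟨k, mem_range.2 (by omega), rfl⟩)))
    obtain ⟨φ', hφ'⟩ := h3 S hSep (t + n) 14 (by norm_num) (by
      intro k hk
      have := ht (n + 7 * k) (mem_union_right _ (mem_image.2 ⟨k, mem_range.2 (by omega), rfl⟩))
      rwa [← add_assoc] at this)
    exact ⟨φ' - φ, full_of hφ hφ'⟩
  -- (4)
  have E4 : ∀ m, m ≤ 43 → ∀ ψ, Full S (7 * m) ψ → ψ = -(m : ZMod 7) := by
    intro m
    induction m with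
    | zero =>
      intro _ ψ hψ
      rw [mul_zero] at hψ
      rw [zero hNo hψ]
      simp
    | succ m ih =>
      intro hm ψ hψ
      obtain ⟨ψ', hψ'⟩ := E1 (7 * m) (by omega)
      have e1 := ih (by omega) ψ' hψ'
      have e2 := step hNo hψ' (show Full S (7 * m + 7) ψ from hψ)
      rw [e1] at e2
      push_cast
      linear_combination -e2
  -- the number n
  have E5 : ∃ i ≤ 6, Full S (1 + 7 * i) 3 := by
    obtain ⟨ψ₀, hψ₀⟩ := E1 1 (by norm_num)
    have e1 : ∀ i, i ≤ 6 → ∀ ψ, Full S (1 + 7 * i) ψ → ψ = ψ₀ - (i : ZMod 7) := by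
      intro i
      induction i with
      | zero =>
        intro _ ψ hψ
        have e2 : ∀ j : ℤ, -6 ≤ j → j ≤ 7 → CC ψ (j : ZMod 7) → DD S (((1 : ℕ) : ℤ) + 7 * j) :=
          fun j hj1 hj2 hj => hψ j (by omega) hj2 hj
        have e3 := key hNo ((1 : ℕ) : ℤ) ψ ψ₀ e2 (fun j hj1 hj2 hj => hψ₀ j (by omega) hj2 hj)
        rw [e3]; simp
      | succ i ih =>
        intro hi ψ hψ
        obtain ⟨ψ', hψ'⟩ := E1 (1 + 7 * i) (by omega)
        have e1 := ih (by omega) ψ' hψ'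
        have e2 := step hNo hψ' (show Full S (1 + 7 * i + 7) ψ from hψ)
        rw [e1] at e2
        push_cast
        linear_combination -e2
    have hv := ZMod.val_lt (ψ₀ - 3)
    refine ⟨(ψ₀ - 3).val, by omega, ?_⟩
    obtain ⟨ψ, hψ⟩ := E1 (1 + 7 * (ψ₀ - 3).val) (by omega)
    have e2 := e1 _ (by omega) ψ hψ
    have e3 : (((ψ₀ - 3).val : ℕ) : ZMod 7) = ψ₀ - 3 := by rw [ZMod.natCast_val, ZMod.cast_id', id]
    rw [e3] at e2
    have e4 : ψ = 3 := by rw [e2]; ring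
    rwa [e4] at hψ
  obtain ⟨i₀, hi₀, hn⟩ := E5
  set n := 1 + 7 * i₀ with hndef
  -- (5)
  obtain ⟨t, ht⟩ := h2 S N hSN hN hd hSep
    (((range 8).image fun k => k * n) ∪ ((range 8).image fun k => k * n + 7))
    (by
      refine (card_union_le _ _).trans ?_
      have e1 := card_image_le (s := range 8) (f := fun k => k * n)
      have e2 := card_image_le (s := range 8) (f := fun k => k * n + 7)
      rw [card_range] at e1 e2
      omega)
    (by
      have hkn : ∀ k, k < 8 → k * n ≤ 7 * 43 := fun k hk => Nat.mul_le_mul (by omega) (by omega)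
      intro f hf
      rw [mem_union, mem_image, mem_image] at hf
      rcases hf with ⟨k, hk, rfl⟩ | ⟨k, hk, rfl⟩ <;> rw [mem_range] at hk <;>
        have := hkn k hk <;> omega)
  have E6 : ∀ k, k < 8 → ∃ φ : ZMod 7, ∀ i, i < 8 →
      (t + k * n + 7 * i ∈ S ↔ ((i : ZMod 7) = φ ∨ (i : ZMod 7) = φ + 2)) := by
    intro k hk
    refine h3 S hSep (t + k * n) 8 (by norm_num) ?_
    intro k' hk'
    have hk2 : k' = 0 ∨ k' = 1 := by omega
    rcases hk2 with rfl | rfl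
    · have := ht (k * n) (mem_union_left _ (mem_image.2 ⟨k, mem_range.2 hk, rfl⟩))
      exact this
    · have := ht (k * n + 7) (mem_union_right _ (mem_image.2 ⟨k, mem_range.2 hk, rfl⟩))
      exact this
  choose! φ hφ using E6
  have E7 : ∀ k, k < 7 → φ (k + 1) = φ k + 3 := by
    intro k hk
    refine step5 hNo hn (hφ k (by omega)) ?_
    intro i hi
    have := hφ (k + 1) (by omega) i hi
    rwa [add_mul, one_mul, ← add_assoc] at this
  have E8 : φ 7 = φ 0 := by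
    have e0 := E7 0 (by norm_num)
    have e1 := E7 1 (by norm_num)
    have e2 := E7 2 (by norm_num)
    have e3 := E7 3 (by norm_num)
    have e4 := E7 4 (by norm_num)
    have e5 := E7 5 (by norm_num)
    have e6 := E7 6 (by norm_num)
    norm_num at e0 e1 e2 e3 e4 e5 e6
    rw [e6, e5, e4, e3, e2, e1, e0]
    have : ∀ x : ZMod 7, x + 3 + 3 + 3 + 3 + 3 + 3 + 3 = x := by decide
    exact this _
  -- the contradiction
  have hn43 : n ≤ 43 := by omega
  obtain ⟨ψ, hψ⟩ := E1 (7 * n) (by omega)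
  have e1 := E4 n hn43 ψ hψ
  have e2 : ((n : ℕ) : ZMod 7) = 1 := by
    rw [hndef]
    push_cast
    have : (7 : ZMod 7) = 0 := by decide
    rw [this, zero_mul, add_zero]
  rw [e2] at e1
  have e3 : DD S (((7 * n : ℕ) : ℤ) + 7 * 6) := by
    refine hψ 6 (by norm_num) (by norm_num) ?_
    rw [e1]
    left
    decide
  have e4 : DD S (((7 * n : ℕ) : ℤ)) := by
    have hv := ZMod.val_lt (φ 0)
    have hc : (((φ 0).val : ℕ) : ZMod 7) = φ 0 := by rw [ZMod.natCast_val, ZMod.cast_id', id]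
    have f1 := (hφ 0 (by norm_num) (φ 0).val (by omega)).2 (Or.inl hc)
    have f2 := (hφ 7 (by norm_num) (φ 0).val (by omega)).2 (Or.inl (by rw [hc, E8]))
    refine ⟨_, f2, _, f1, ?_⟩
    push_cast
    ring
  refine dd_no hNo e4 ?_
  have e5 : ((7 * n : ℕ) : ℤ) + 42 = ((7 * n : ℕ) : ℤ) + 7 * 6 := by ring
  rw [e5]
  exact e3

end Pool.Agent.H40E9.K42
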