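import Pool.Agent.H40E9.K42.Stm

/-!
# Project K42: piece GOOD (helper70)
-/

set_option autoImplicit false
set_option maxRecDepth 100000

namespace Pool.Agent.H40E9.K42

open Finset

lemma w7_70 : ∀ P ∈ (range 7).powerset, (∀ x ∈ P, x + 1 ∉ P ∧ x + 3 ∉ P ∧ x + 4 ∉ P ∧ x + 6 ∉ P) →
    P.card ≤ 2 := by decide +kernel

lemma cnt_le_two70 {S : Finset ℕ} (h : Sep S) (t : ℕ) : cnt S 7 7 t ≤ 2 := by
  refine w7_70 _ (mem_powerset.2 (filter_subset _ _)) ?_
  intro x hx
  rw [mem_filter] at hx
  have h1 := h _ hx.2
  refine ⟨fun hy => ?_, fun hy => ?_, fun hy => ?_, fun hy => ?_⟩ <;> rw [mem_filter] at hy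
  · exact h1.1 (by convert hy.2 using 1; ring)
  · exact h1.2.1 (by convert hy.2 using 1; ring)
  · exact h1.2.2.1 (by convert hy.2 using 1; ring)
  · exact h1.2.2.2 (by convert hy.2 using 1; ring)

theorem t_GOOD (h : S_CNT) : S_GOOD := by
  intro S N hS hN hd hsep F hF hF4
  by_contra hcon
  push Not at hcon
  set B := (range N).filter fun t => cnt S 7 7 t ≤ 1 with hB
  have h1 := h S N 7 7 hS
  have h2 : ∑ t ∈ range N, cnt S 7 7 t + B.card ≤ 2 * N := by
    rw [hB, card_filter, ← sum_add_distrib]
    calc _ ≤ ∑ t ∈ range N, 2 := by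
          refine sum_le_sum fun t _ => ?_
          have := cnt_le_two70 hsep t
          split_ifs <;> omega
      _ = 2 * N := by rw [sum_const, card_range, smul_eq_mul, mul_comm]
  have h3 : N - 400 ≤ 17 * B.card := by
    have hsub : range (N - 400) ⊆ F.biUnion fun f => (range N).filter fun t => t + f ∈ B := by
      intro t ht
      rw [mem_range] at ht
      obtain ⟨f, hf, hc⟩ := hcon t
      rw [mem_biUnion]
      refine ⟨f, hf, ?_⟩
      have hf4 := hF4 f hf
      have := cnt_le_two70 hsep (t + f)
      rw [mem_filter, hB, mem_filter, mem_range, mem_range]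
      refine ⟨by omega, by omega, by omega⟩
    calc N - 400 = (range (N - 400)).card := (card_range _).symm
      _ ≤ _ := card_le_card hsub
      _ ≤ F.card * B.card := by
          refine card_biUnion_le_card_mul _ _ _ fun f _ => ?_
          refine card_le_card_of_injOn (fun t => t + f) ?_ ?_
          · intro t ht
            exact (mem_filter.1 ht).2
          · intro a _ b _ hab
            simpa using hab
      _ ≤ 17 * B.card := Nat.mul_le_mul_right _ hF
  omega

end Pool.Agent.H40E9.K42
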