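import Pool.Agent.H40E9.K42.Stm

/-!
# Piece PAT (helper61)
-/

set_option autoImplicit false

namespace Pool.Agent.H40E9.K42

open Finset

namespace PAT

theorem base : ∀ a0 a1 a2 a3 a4 a5 a6 : Bool,
    a0.toNat + a1.toNat + a2.toNat + a3.toNat + a4.toNat + a5.toNat + a6.toNat = 2 →
    (a0 = true → a1 = false ∧ a3 = false ∧ a4 = false ∧ a6 = false) →
    (a1 = true → a2 = false ∧ a4 = false ∧ a5 = false) →
    (a2 = true → a3 = false ∧ a5 = false ∧ a6 = false) →
    (a3 = true → a4 = false ∧ a6 = false) →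
    (a4 = true → a5 = false) →
    (a5 = true → a6 = false) →
    ∃ φ : ZMod 7, (a0 = true ↔ (0 : ZMod 7) = φ ∨ (0 : ZMod 7) = φ + 2) ∧
      (a1 = true ↔ (1 : ZMod 7) = φ ∨ (1 : ZMod 7) = φ + 2) ∧
      (a2 = true ↔ (2 : ZMod 7) = φ ∨ (2 : ZMod 7) = φ + 2) ∧
      (a3 = true ↔ (3 : ZMod 7) = φ ∨ (3 : ZMod 7) = φ + 2) ∧
      (a4 = true ↔ (4 : ZMod 7) = φ ∨ (4 : ZMod 7) = φ + 2) ∧
      (a5 = true ↔ (5 : ZMod 7) = φ ∨ (5 : ZMod 7) = φ + 2) ∧
      (a6 = true ↔ (6 : ZMod 7) = φ ∨ (6 : ZMod 7) = φ + 2) := by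
  set_option synthInstance.maxSize 2000 in
  decide +kernel

theorem cnt_eq (S : Finset ℕ) (l t : ℕ) :
    cnt S 7 l t = ∑ i ∈ range l, if t + 7 * i ∈ S then 1 else 0 := by
  unfold cnt
  rw [card_filter]

theorem cnt_succ (S : Finset ℕ) (s : ℕ) :
    cnt S 7 7 s + (if s + 49 ∈ S then 1 else 0) =
      cnt S 7 7 (s + 7) + (if s ∈ S then 1 else 0) := by
  rw [cnt_eq, cnt_eq]
  have h1 := Finset.sum_range_succ (fun i => if s + 7 * i ∈ S then 1 else 0) 7
  have h2 := Finset.sum_range_succ' (fun i => if s + 7 * i ∈ S then 1 else 0) 7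
  rw [h1] at h2
  have h3 : ∀ i, s + 7 * (i + 1) = s + 7 + 7 * i := fun i => by ring
  simp only [h3, Nat.mul_zero, Nat.add_zero] at h2
  exact h2

end PAT

open PAT in
theorem t_PAT : S_PAT := by
  intro S hS t m hm hc
  induction m, hm using Nat.le_induction with
  | base =>
    have h0 := hc 0 (by norm_num)
    rw [cnt_eq] at h0
    simp only [Finset.sum_range_succ, Finset.sum_range_zero, Nat.mul_zero, Nat.add_zero,
      Nat.zero_add, Nat.mul_one] at h0
    have hb : ∀ p : Prop, [Decidable p] → (decide p).toNat = if p then 1 else 0 := by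
      intro p _
      by_cases h : p <;> simp [h]
    have key := base (decide (t ∈ S)) (decide (t + 7 ∈ S)) (decide (t + 7 * 2 ∈ S))
      (decide (t + 7 * 3 ∈ S)) (decide (t + 7 * 4 ∈ S)) (decide (t + 7 * 5 ∈ S))
      (decide (t + 7 * 6 ∈ S)) (by simp only [hb]; exact h0)
      (by
        simp only [decide_eq_true_eq, decide_eq_false_iff_not]
        exact fun h => hS t h)
      (by
        simp only [decide_eq_true_eq, decide_eq_false_iff_not]
        intro h
        have h1 := hS _ h
        exact ⟨h1.1, h1.2.1, h1.2.2.1⟩)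
      (by
        simp only [decide_eq_true_eq, decide_eq_false_iff_not]
        intro h
        have h1 := hS _ h
        exact ⟨h1.1, h1.2.1, h1.2.2.1⟩)
      (by
        simp only [decide_eq_true_eq, decide_eq_false_iff_not]
        intro h
        have h1 := hS _ h
        exact ⟨h1.1, h1.2.1⟩)
      (by
        simp only [decide_eq_true_eq, decide_eq_false_iff_not]
        intro h
        exact (hS _ h).1)
      (by
        simp only [decide_eq_true_eq, decide_eq_false_iff_not]
        intro h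
        exact (hS _ h).1)
    simp only [decide_eq_true_eq] at key
    obtain ⟨φ, k0, k1, k2, k3, k4, k5, k6⟩ := key
    refine ⟨φ, fun i hi => ?_⟩
    interval_cases i
    · simpa using k0
    · simpa using k1
    · exact_mod_cast k2
    · exact_mod_cast k3
    · exact_mod_cast k4
    · exact_mod_cast k5
    · exact_mod_cast k6
  | succ m hm ih =>
    obtain ⟨φ, hφ⟩ := ih fun k hk => hc k (by omega)
    refine ⟨φ, fun i hi => ?_⟩
    rcases Nat.lt_succ_iff_lt_or_eq.1 hi with h | h
    · exact hφ i h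
    · subst h
      obtain ⟨k, rfl⟩ : ∃ k, i = k + 7 := ⟨i - 7, by omega⟩
      have h1 := cnt_succ S (t + 7 * k)
      have h2 := hc k (by omega)
      have h3 := hc (k + 1) (by omega)
      have e1 : t + 7 * (k + 1) = t + 7 * k + 7 := by ring
      rw [e1] at h3
      rw [h2, h3] at h1
      have e2 : t + 7 * (k + 7) = t + 7 * k + 49 := by ring
      have e3 : ((k + 7 : ℕ) : ZMod 7) = (k : ZMod 7) := by
        push_cast
        have : (7 : ZMod 7) = 0 := by decide
        rw [this, add_zero]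
      rw [e2, e3, ← hφ k (by omega)]
      by_cases h4 : t + 7 * k + 49 ∈ S <;> by_cases h5 : t + 7 * k ∈ S <;>
        simp [h4, h5] at h1 ⊢

end Pool.Agent.H40E9.K42
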