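import Pool.Agent.H40E9.K42.Stm

/-!
# Project K42: piece TWO (helper70)
-/

set_option autoImplicit false
set_option maxRecDepth 100000

namespace Pool.Agent.H40E9.K42

open Finset

lemma w4_70 : ∀ P ∈ (range 4).powerset, (∀ x ∈ P, x + 1 ∉ P ∧ x + 2 ∉ P ∧ x + 3 ∉ P) →
    P.card ≤ 1 := by decide +kernel

lemma w8_70 : ∀ P ∈ (range 8).powerset,
    (∀ x ∈ P, x + 2 ∉ P ∧ x + 3 ∉ P ∧ x + 5 ∉ P ∧ x + 6 ∉ P ∧ x + 7 ∉ P) →
    P.card ≤ 2 := by decide +kernel

lemma w11_70 : ∀ P ∈ (range 11).powerset,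
    (∀ x ∈ P, x + 3 ∉ P ∧ x + 4 ∉ P ∧ x + 5 ∉ P ∧ x + 6 ∉ P ∧ x + 7 ∉ P ∧ x + 8 ∉ P) →
    P.card ≤ 3 := by decide +kernel

/-- `k` is not a difference. -/
def ND70 (S : Finset ℕ) (k : ℕ) : Prop := ∀ x ∈ S, x + k ∉ S

lemma bound70 {S : Finset ℕ} (l t c : ℕ) (K : Finset ℕ) (hK : ∀ k ∈ K, ND70 S (7 * k))
    (hw : ∀ P ∈ (range l).powerset, (∀ x ∈ P, ∀ k ∈ K, x + k ∉ P) → P.card ≤ c) :
    cnt S 7 l t ≤ c := by
  refine hw _ (mem_powerset.2 (filter_subset _ _)) ?_
  intro x hx k hk hy
  rw [mem_filter] at hx hy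
  exact hK k hk _ hx.2 (by convert hy.2 using 1; ring)

lemma sum_bound70 {S : Finset ℕ} (N l c : ℕ) (h : ∀ t, cnt S 7 l t ≤ c) :
    ∑ t ∈ range N, cnt S 7 l t ≤ c * N := by
  calc _ ≤ ∑ t ∈ range N, c := sum_le_sum fun t _ => h t
    _ = c * N := by rw [sum_const, card_range, smul_eq_mul, mul_comm]

theorem t_TWO (h : S_CNT) : S_TWO := by
  intro S N hS hN hd hW
  have hne : S.Nonempty := by
    rw [nonempty_iff_ne_empty]
    rintro rfl
    rw [card_empty] at hd
    omega
  obtain ⟨s, hs⟩ := hne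
  have n42 : ND70 S 42 := fun x hx hy => hW _ hy _ hs _ hx _ hs (by omega)
  have n21 : ND70 S 21 := fun x hx hy => hW _ hy _ hy _ hx _ hx (by omega)
  by_cases h7 : ND70 S 7
  · by_cases h14 : ND70 S 14
    · exfalso
      have h1 := h S N 7 4 hS
      have h2 := sum_bound70 (S := S) N 4 1 (fun t => bound70 4 t 1 {1, 2, 3} (by
        intro k hk
        simp only [mem_insert, mem_singleton] at hk
        rcases hk with rfl | rfl | rfl
        · exact h7
        · exact h14
        · exact n21) (by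
        intro P hP hx
        exact w4_70 P hP fun x hx' => ⟨hx x hx' 1 (by simp), hx x hx' 2 (by simp),
          hx x hx' 3 (by simp)⟩))
      omega
    · unfold ND70 at h14
      push Not at h14
      obtain ⟨a, ha, ha'⟩ := h14
      have n28 : ND70 S 28 := fun x hx hy => hW _ hy _ ha' _ hx _ ha (by omega)
      intro x hx
      exact ⟨h7 x hx, n21 x hx, n28 x hx, n42 x hx⟩
  · exfalso
    unfold ND70 at h7
    push Not at h7
    obtain ⟨a, ha, ha'⟩ := h7
    have n35 : ND70 S 35 := fun x hx hy => hW _ hy _ ha' _ hx _ ha (by omega)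
    have n49 : ND70 S 49 := fun x hx hy => hW _ hy _ ha _ hx _ ha' (by omega)
    by_cases h14 : ND70 S 14
    · have h1 := h S N 7 8 hS
      have h2 := sum_bound70 (S := S) N 8 2 (fun t => bound70 8 t 2 {2, 3, 5, 6, 7} (by
        intro k hk
        simp only [mem_insert, mem_singleton] at hk
        rcases hk with rfl | rfl | rfl | rfl | rfl
        · exact h14
        · exact n21
        · exact n35
        · exact n42
        · exact n49) (by
        intro P hP hx
        exact w8_70 P hP fun x hx' => ⟨hx x hx' 2 (by simp), hx x hx' 3 (by simp),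
          hx x hx' 5 (by simp), hx x hx' 6 (by simp), hx x hx' 7 (by simp)⟩))
      omega
    · unfold ND70 at h14
      push Not at h14
      obtain ⟨b, hb, hb'⟩ := h14
      have n28 : ND70 S 28 := fun x hx hy => hW _ hy _ hb' _ hx _ hb (by omega)
      have n56 : ND70 S 56 := fun x hx hy => hW _ hy _ hb _ hx _ hb' (by omega)
      have h1 := h S N 7 11 hS
      have h2 := sum_bound70 (S := S) N 11 3 (fun t => bound70 11 t 3 {3, 4, 5, 6, 7, 8} (by
        intro k hk
        simp only [mem_insert, mem_singleton] at hk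
        rcases hk with rfl | rfl | rfl | rfl | rfl | rfl
        · exact n21
        · exact n28
        · exact n35
        · exact n42
        · exact n49
        · exact n56) (by
        intro P hP hx
        exact w11_70 P hP fun x hx' => ⟨hx x hx' 3 (by simp), hx x hx' 4 (by simp),
          hx x hx' 5 (by simp), hx x hx' 6 (by simp), hx x hx' 7 (by simp), hx x hx' 8 (by simp)⟩))
      omega

end Pool.Agent.H40E9.K42
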