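import Pool.Agent.H40E9.K42.Main
import Pool.Agent.H40E9.K42.CNT
import Pool.Agent.H40E9.K42.TWO
import Pool.Agent.H40E9.K42.GOOD
import Pool.Agent.H40E9.K42.PAT
import Pool.Agent.H40E9.K42.FIN

/-!
# Assembly
-/

set_option autoImplicit false

namespace Pool.Agent.H40E9.K42

theorem k42 : S_K42 := t_FIN (t_TWO t_CNT) (t_GOOD t_CNT) t_PAT

end Pool.Agent.H40E9.K42
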