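import Mathlib
import Pool.Agent.H40E9.CM.Col

/-!
# `5 T / 18` of `T` classes of linear forms, one choice of forms for all lengths
-/

set_option autoImplicit false

namespace Pool.Agent.H40E9.K42

open Finset Filter
open Pool.Agent.Y827.HN

theorem cliqueT (T : ℕ) (hT : 1 ≤ T) : ∃ K : ℕ, 1 ≤ K ∧ ∀ H : Fin T → Fin K → ℤ × ℤ,
    Function.Injective (fun x : Fin T × Fin K => H x.1 x.2) →
    (∀ g i, 0 < (H g i).1 ∧ IsCoprime (H g i).1 (H g i).2) →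
    (∀ p : ℕ, p.Prime → p ≤ T * K → ∃ r : ℤ, ∀ g i, ¬ (p : ℤ) ∣ (H g i).1 * r + (H g i).2) →
    ∃ (S : Finset (Fin T)) (c : Fin T → Fin K), (T : ℝ) ≤ 18 / 5 * (S.card : ℝ) ∧
      ∀ a ∈ S, ∀ b ∈ S, a < b → ∀ l : ℕ, ∃ C : ℕ, ∃ᶠ N : ℕ in atTop,
        QX l C N {H a (c a), H b (c b)} ∅ := by
  classical
  obtain ⟨K, hK, h⟩ := patRD T
  refine ⟨K, hK, fun H hinj hpos hadm => ?_⟩
  have h1 := fun l => h hT H hinj hpos hadm ∅ (by simp) l
  -- for every `l` a choice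
  have h2 : ∀ l : ℕ, ∃ τ : Finset (Fin T) × (Fin T → Fin K), (T : ℝ) ≤ 18 / 5 * (τ.1.card : ℝ) ∧
      ∃ C : ℕ, ∃ᶠ N : ℕ in atTop, ∀ a ∈ τ.1, ∀ b ∈ τ.1, a < b →
        QX l C N {H a (τ.2 a), H b (τ.2 b)} ∅ := by
    intro l
    obtain ⟨C, hC⟩ := h1 l
    by_contra hcon
    push Not at hcon
    have h3 : ∀ᶠ N : ℕ in atTop, ∀ τ : Finset (Fin T) × (Fin T → Fin K),
        (T : ℝ) ≤ 18 / 5 * (τ.1.card : ℝ) → ¬ ∀ a ∈ τ.1, ∀ b ∈ τ.1, a < b →
        QX l C N {H a (τ.2 a), H b (τ.2 b)} ∅ := by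
      rw [eventually_all]
      intro τ
      by_cases hτ : (T : ℝ) ≤ 18 / 5 * (τ.1.card : ℝ)
      · filter_upwards [hcon τ hτ C] with N hN _ hall
        obtain ⟨a, ha, b, hb, hab, hq⟩ := hN
        exact hq (hall a ha b hb hab)
      · exact Eventually.of_forall fun N h4 => absurd h4 hτ
    obtain ⟨N, ⟨S, c, hS, hall⟩, hN2⟩ := (hC.and h3).exists
    refine hN2 (S, c) hS fun a ha b hb _ => ?_
    have h7 := hall {H a (c a), H b (c b)} (by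
      intro f hf
      rw [mem_insert, mem_singleton] at hf
      rcases hf with rfl | rfl
      · exact mem_image_of_mem _ ha
      · exact mem_image_of_mem _ hb)
    exact QX_anti (Subset.refl _) (Finset.empty_subset _) h7
  choose τ hτ1 hτ2 using h2
  obtain ⟨T', hT'⟩ := Finite.exists_infinite_fiber τ
  have hTinf : (τ ⁻¹' {T'}).Infinite := Set.infinite_coe_iff.1 hT'
  obtain ⟨l0, hl0⟩ := hTinf.nonempty
  have hl0' : τ l0 = T' := hl0
  refine ⟨T'.1, T'.2, by rw [← hl0']; exact hτ1 l0, fun a ha b hb hab l => ?_⟩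
  obtain ⟨l', hl', hll⟩ := hTinf.exists_gt l
  have hl'' : τ l' = T' := hl'
  obtain ⟨C, hC⟩ := hτ2 l'
  rw [hl''] at hC
  exact ⟨C, hC.mono fun N hN => QX_len hll.le (hN a ha b hb hab)⟩

end Pool.Agent.H40E9.K42
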