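import Mathlib
import Pool.Agent.H40E9.CM.Main
import Pool.Agent.H40E9.K42.Col

/-!
# Commuting affine maps: the limit set has the clique property
-/

set_option autoImplicit false

namespace Pool.Agent.H40E9.K42

open Finset Filter Algebra
open Pool.Agent.Y827.HN
open Pool.Agent.H40E9.CM

variable {S : Submonoid Aff} (h : Sys S)

/-- the condition at the primes up to `T` -/
def Loc (S : Submonoid Aff) (T : ℕ) : Prop :=
  ∀ p : ℕ, p.Prime → p ≤ T → ∀ g ∈ S, (p : ℤ) ∣ g.d - 1 → (p : ℤ) ∣ g.a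

include h

theorem admS {p : ℕ} (hp : p.Prime) (hloc : ∀ g ∈ S, (p : ℤ) ∣ g.d - 1 → (p : ℤ) ∣ g.a) :
    ∃ r : ℤ, ∀ f ∈ S, (((f.a + f.d * r : ℤ)) : ZMod p) ≠ 0 := by
  have : Fact p.Prime := ⟨hp⟩
  have hcop : ∀ f ∈ S, ¬ (((f.a : ℤ) : ZMod p) = 0 ∧ ((f.d : ℤ) : ZMod p) = 0) := by
    rintro f hf ⟨h4, h5⟩
    rw [ZMod.intCast_zmod_eq_zero_iff_dvd] at h4 h5
    have h6 := (h.cop f hf).isUnit_of_dvd' h4 h5
    rw [Int.isUnit_iff] at h6
    have h7 : (2 : ℤ) ≤ p := by exact_mod_cast hp.two_le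
    omega
  have hcm : ∀ f ∈ S, ∀ g ∈ S, ((f.a : ℤ) : ZMod p) + ((f.d : ℤ) : ZMod p) * ((g.a : ℤ) : ZMod p) =
      ((g.a : ℤ) : ZMod p) + ((g.d : ℤ) : ZMod p) * ((f.a : ℤ) : ZMod p) := by
    intro f hf g hg
    have h1 := h.comm f hf g hg
    have h2 : f.a + f.d * g.a = g.a + g.d * f.a := congrArg Aff.a h1
    have h3 := congrArg (Int.cast : ℤ → ZMod p) h2
    push_cast at h3
    exact h3
  by_cases hA : ∃ g ∈ S, ((g.d : ℤ) : ZMod p) = 0
  · obtain ⟨g, hg, hg0⟩ := hA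
    refine ⟨g.a, fun f hf hz => ?_⟩
    have h1 := hcm f hf g hg
    rw [hg0, zero_mul, add_zero] at h1
    push_cast at hz
    rw [h1] at hz
    exact hcop g hg ⟨hz, hg0⟩
  · push Not at hA
    by_cases hB : ∃ g ∈ S, ((g.d : ℤ) : ZMod p) ≠ 1
    · obtain ⟨g, hg, hg1⟩ := hB
      have hne : (1 : ZMod p) - ((g.d : ℤ) : ZMod p) ≠ 0 := fun h0 => hg1 (sub_eq_zero.1 h0).symm
      -- the fixed point
      obtain ⟨x, hx⟩ : ∃ x : ZMod p, x = ((g.a : ℤ) : ZMod p) / (1 - ((g.d : ℤ) : ZMod p)) := ⟨_, rfl⟩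
      have hxg : x * (1 - ((g.d : ℤ) : ZMod p)) = ((g.a : ℤ) : ZMod p) := by
        rw [hx, div_mul_cancel₀ _ hne]
      have hfx : ∀ f ∈ S, ((f.a : ℤ) : ZMod p) = x * (1 - ((f.d : ℤ) : ZMod p)) := by
        intro f hf
        have h1 := hcm f hf g hg
        rw [← hxg] at h1
        apply mul_right_cancel₀ hne
        linear_combination h1
      by_cases hx0 : x = 0
      · refine ⟨1, fun f hf hz => ?_⟩
        push_cast at hz
        rw [hfx f hf, hx0, zero_mul, zero_add, mul_one] at hz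
        exact hA f hf hz
      · refine ⟨(x.val : ℤ), fun f hf hz => ?_⟩
        push_cast at hz
        rw [ZMod.natCast_zmod_val, hfx f hf] at hz
        apply hx0
        linear_combination hz
    · push Not at hB
      refine ⟨1, fun f hf hz => ?_⟩
      push_cast at hz
      have h1 := hB f hf
      have h2 : (p : ℤ) ∣ f.d - 1 := by
        rw [← ZMod.intCast_zmod_eq_zero_iff_dvd]
        push_cast
        rw [h1, sub_self]
      have h3 := hloc f hf h2
      rw [← ZMod.intCast_zmod_eq_zero_iff_dvd] at h3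
      rw [h3, h1, zero_add, one_mul] at hz
      exact one_ne_zero hz

theorem admT {T p : ℕ} (hp : p.Prime) (hpT : T < p) (f : Fin T → Aff) (hf : ∀ a, f a ∈ S) :
    ∃ r : ℤ, ∀ a, (((f a).a + (f a).d * r : ℤ) : ZMod p) ≠ 0 := by
  have : Fact p.Prime := ⟨hp⟩
  by_contra hcon
  push Not at hcon
  choose c hc using hcon
  obtain ⟨x, y, hxy, hcxy⟩ := Fintype.exists_ne_map_eq_of_card_lt
    (fun x : ZMod p => c (x.val : ℤ)) (by rw [ZMod.card, Fintype.card_fin]; omega)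
  have h1 := hc (x.val : ℤ)
  have h2 := hc (y.val : ℤ)
  have hcxy' : c (x.val : ℤ) = c (y.val : ℤ) := hcxy
  rw [hcxy'] at h1
  set g := f (c (y.val : ℤ)) with hg
  push_cast at h1 h2
  rw [ZMod.natCast_zmod_val] at h1 h2
  have h3 : (g.d : ZMod p) * (x - y) = 0 := by linear_combination h1 - h2
  have h4 : (g.d : ZMod p) = 0 := by
    rcases mul_eq_zero.1 h3 with h5 | h5
    · exact h5
    · exact absurd (sub_eq_zero.1 h5) hxy
  have h5 : (g.a : ZMod p) = 0 := by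
    rw [h4, zero_mul, add_zero] at h2
    exact h2
  rw [ZMod.intCast_zmod_eq_zero_iff_dvd] at h4 h5
  have h6 := (h.cop g (hf _)).isUnit_of_dvd' h5 h4
  rw [Int.isUnit_iff] at h6
  have h7 : (2 : ℤ) ≤ p := by exact_mod_cast hp.two_le
  omega

theorem clique_PP {T : ℕ} (hT : 1 ≤ T) (hloc : Loc S T) (X : ℕ → MM h)
    (hX1 : ∀ w : MM h, ∃ i₀ : ℕ, ∀ i, i₀ ≤ i → ∀ j, i < j → X i * w ∣ X j)
    (hX2 : ∀ u v : MM h, ∃ i₀ : ℕ, ∀ i, i₀ ≤ i → ∀ j, i < j → X j * u ≠ X i * v)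
    (U : Ultrafilter ℕ) (hU : (U : Filter ℕ) ≤ atTop) (γ : Fin T → GrothendieckGroup (MM h)) :
    ∃ F : Finset (Fin T), (T : ℝ) ≤ 18 / 5 * (F.card : ℝ) ∧
      ∀ a ∈ F, ∀ b ∈ F, a < b → γ b * (γ a)⁻¹ ∈ PP h X U := by
  classical
  obtain ⟨K, hK, hpair⟩ := cliqueT T hT
  obtain ⟨w, u, hwu⟩ := common γ
  -- the cofactors
  obtain ⟨i1, hi1⟩ := hX1 w
  have hy : ∀ i, ∃ y : MM h, i1 < i → X i = w * y := by
    intro i
    by_cases hi : i1 < i
    · obtain ⟨z, hz⟩ := hi1 i1 le_rfl i hi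
      refine ⟨X i1 * z, fun _ => ?_⟩
      rw [hz, mul_comm (X i1) w, mul_assoc]
    · exact ⟨1, fun h' => absurd h' hi⟩
  choose y hy using hy
  choose i2 hi2 using fun a : Fin T => hX1 (u a)
  choose i3 hi3 using fun ab : Fin T × Fin T => hX2 (u ab.1) (u ab.2)
  set I : ℕ := i1 + 1 + ∑ a, i2 a + ∑ ab, i3 ab with hI
  have hI1 : i1 < I := by omega
  have hI2 : ∀ a, i2 a ≤ I := by
    intro a
    have := Finset.single_le_sum (f := i2) (fun _ _ => Nat.zero_le _) (mem_univ a)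
    omega
  have hI3 : ∀ ab, i3 ab ≤ I := by
    intro ab
    have := Finset.single_le_sum (f := i3) (fun _ _ => Nat.zero_le _) (mem_univ ab)
    omega
  -- the colour
  set L : ℕ := (T * K).factorial with hL
  have : NeZero L := ⟨Nat.factorial_ne_zero _⟩
  obtain ⟨c, hc⟩ := ultra_color U (fun i => (((y i).1.a : ZMod L), ((y i).1.d : ZMod L)))
  have hcon' : ∀ᶠ i in (U : Filter ℕ), ∀ᶠ j in (U : Filter ℕ), ∀ ab : Fin T × Fin T,
      γ ab.2 * (γ ab.1)⁻¹ ∉ PP h X U →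
      ¬ ∃ g : MM h, GG h g ∧ GrothendieckGroup.of (X j) * (γ ab.2 * (γ ab.1)⁻¹) =
        GrothendieckGroup.of g * GrothendieckGroup.of (X i) := by
    simp only [eventually_all]
    intro ab h1
    unfold PP at h1
    rw [Set.mem_ofPred_eq, ← Ultrafilter.eventually_not] at h1
    filter_upwards [h1] with i hi
    rwa [← Ultrafilter.eventually_not] at hi
  obtain ⟨s, hs1, hs2, hs3⟩ := ultra_seq U hU
    (fun i => I ≤ i ∧ (((y i).1.a : ZMod L), ((y i).1.d : ZMod L)) = c) _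
    (((eventually_ge_atTop I).filter_mono hU).and hc) hcon'
  have hyy : ∀ m, X (s m) = w * y (s m) := fun m => hy _ (lt_of_lt_of_le hI1 (hs2 m).1)
  -- divisibility and distinctness of the cofactors
  have hdvd : ∀ a m m', m < m' → y (s m) * u a ∣ y (s m') := by
    intro a m m' hmm
    obtain ⟨z, hz⟩ := hi2 a (s m) ((hI2 a).trans (hs2 m).1) (s m') (hs1 m m' hmm)
    refine ⟨z, ?_⟩
    apply mul_left_cancel (a := w)
    rw [← hyy, hz, hyy, mul_assoc, mul_assoc, mul_assoc]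
  have hneq : ∀ a b m m', m < m' → y (s m') * u a ≠ y (s m) * u b := by
    intro a b m m' hmm he
    apply hi3 (a, b) (s m) ((hI3 _).trans (hs2 m).1) (s m') (hs1 m m' hmm)
    rw [hyy, hyy, mul_assoc, mul_assoc, he]
  -- the indices
  have hidx : ∀ a b : Fin T, ∀ k l : Fin K, a < b → (a : ℕ) * K + k < (b : ℕ) * K + l := by
    intro a b k l hab
    have h1 : (a : ℕ) + 1 ≤ b := hab
    have h2 : ((a : ℕ) + 1) * K ≤ b * K := Nat.mul_le_mul_right _ h1
    have h3 := k.2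
    have h4 : ((a : ℕ) + 1) * K = a * K + K := by ring
    omega
  set f : Fin T → Fin K → MM h := fun a k => y (s ((a : ℕ) * K + k)) * u a with hf
  obtain ⟨F, κ, hF, hq⟩ := hpair (fun a k => ((f a k).1.d, (f a k).1.a)) (by
      rintro ⟨a, k⟩ ⟨b, l⟩ he
      simp only [Prod.mk.injEq] at he
      have he1 : f a k = f b l := MM.ext' h (Aff.ext he.2 he.1)
      rcases lt_trichotomy ((a : ℕ) * K + k) ((b : ℕ) * K + l) with h1 | h1 | h1
      · exact absurd he1.symm (hneq b a _ _ h1)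
      · rcases lt_trichotomy a b with h2 | h2 | h2
        · have := hidx a b k l h2; omega
        · subst h2
          have h3 : (k : ℕ) = l := by omega
          rw [Fin.ext h3]
        · have := hidx b a l k h2; omega
      · exact absurd he1 (hneq a b _ _ h1))
    (fun a k => ⟨by have := h.pos _ (f a k).2; show 0 < (f a k).1.d; omega, (h.cop _ (f a k).2).symm⟩)
    (by
      intro p hp hpK
      have key : (∃ r : ℤ, ∀ a k, ((((f a k).1.a + (f a k).1.d * r : ℤ)) : ZMod p) ≠ 0) →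
          ∃ r : ℤ, ∀ g i, ¬ (p : ℤ) ∣ (f g i).1.d * r + (f g i).1.a := by
        rintro ⟨r, hr⟩
        refine ⟨r, fun a k hd => hr a k ?_⟩
        rw [ZMod.intCast_zmod_eq_zero_iff_dvd, add_comm]
        exact hd
      apply key
      by_cases hp5 : T < p
      · obtain ⟨r, hr⟩ := admT h hp hp5 (fun a => (f a ⟨0, hK⟩).1) (fun a => (f a ⟨0, hK⟩).2)
        refine ⟨r, fun a k hd => hr a ?_⟩
        have hpL : p ∣ L := by
          rw [hL]; exact (Nat.Prime.dvd_factorial hp).2 hpK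
        have hcol : ∀ m, ((((y (s m)).1.a : ℤ) : ZMod p) = ZMod.castHom hpL (ZMod p) c.1) ∧
            (((y (s m)).1.d : ℤ) : ZMod p) = ZMod.castHom hpL (ZMod p) c.2 := by
          intro m
          have h1 := (hs2 m).2
          rw [← h1]
          exact ⟨by rw [map_intCast], by rw [map_intCast]⟩
        have h2 : ∀ m m', (((y (s m) * u a).1.a + (y (s m) * u a).1.d * r : ℤ) : ZMod p) =
            (((y (s m') * u a).1.a + (y (s m') * u a).1.d * r : ℤ) : ZMod p) := by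
          intro m m'
          simp only [MM.val_mul, Aff.mul_a, Aff.mul_d]
          push_cast
          rw [(hcol m).1, (hcol m).2, (hcol m').1, (hcol m').2]
        show (((f a ⟨0, hK⟩).1.a + (f a ⟨0, hK⟩).1.d * r : ℤ) : ZMod p) = 0
        rw [hf]
        simp only
        rw [h2 _ ((a : ℕ) * K + k)]
        exact hd
      · obtain ⟨r, hr⟩ := admS h hp (hloc p hp (by omega))
        exact ⟨r, fun a k => hr _ (f a k).2⟩)
  refine ⟨F, hF, fun a ha b hb hab => ?_⟩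
  by_contra hnot
  have hq' := hq a ha b hb hab
  -- the good map
  obtain ⟨z, hz⟩ := hdvd a _ _ (hidx a b (κ a) (κ b) hab)
  have hfb : f b (κ b) = (z * u b) * f a (κ a) := by
    show y (s ((b : ℕ) * K + (κ b))) * u b = (z * u b) * (y (s ((a : ℕ) * K + (κ a))) * u a)
    rw [hz]
    ac_rfl
  apply hs3 _ _ (hidx a b (κ a) (κ b) hab) (a, b) hnot
  refine ⟨z * u b, ?_, ?_⟩
  · refine good_of (α := (f a (κ a)).1.d) (β := (f a (κ a)).1.a) (by
      have := h.pos _ (f a (κ a)).2; omega) _ ?_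
    intro l'
    obtain ⟨C, hC⟩ := hq' l'
    refine ⟨C, ?_⟩
    have e1 : (((f b (κ b)).1.d, (f b (κ b)).1.a) : ℤ × ℤ) = (((z * u b).1.d * (f a (κ a)).1.d : ℤ),
        ((z * u b).1.a + (z * u b).1.d * (f a (κ a)).1.a : ℤ)) := by
      rw [hfb, MM.val_mul, Aff.mul_a, Aff.mul_d]
    rw [e1] at hC
    exact hC
  · show GrothendieckGroup.of (X (s ((b : ℕ) * K + (κ b)))) * (γ b * (γ a)⁻¹) =
      GrothendieckGroup.of (z * u b) * GrothendieckGroup.of (X (s ((a : ℕ) * K + (κ a))))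
    have e3 : X (s ((b : ℕ) * K + (κ b))) * u b = z * u b * X (s ((a : ℕ) * K + (κ a))) * u a := by
      rw [hyy, hyy, hz]
      ac_rfl
    have e4 := congrArg (GrothendieckGroup.of (M := MM h)) e3
    rw [map_mul, map_mul _ (z * u b * X (s ((a : ℕ) * K + (κ a)))), map_mul _ (z * u b), ← hwu, ← hwu] at e4
    exact cancel_aux e4

end Pool.Agent.H40E9.K42
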