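import Mathlib

/-!
# Sets of integers of density at least 5/18: `42` is a combination `a + b - c - d` of their elements

Five independent pieces (imports only this file). File `Pool/Agent/H40E9/K42/<PIECE>.lean`, theorem
`t_<PIECE> : S_<PIECE>` (for FIN: `t_FIN (h1 : S_TWO) (h2 : S_GOOD) (h3 : S_PAT) : S_K42`; TWO and GOOD may use
`h : S_CNT` as a hypothesis), namespace `Pool.Agent.H40E9.K42`.
-/

set_option autoImplicit false

namespace Pool.Agent.H40E9.K42

open Finset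

/-- the number of the elements of `S` among `t, t + q, …, t + q (l - 1)` -/
def cnt (S : Finset ℕ) (q l t : ℕ) : ℕ := ((range l).filter fun i => t + q * i ∈ S).card

/-- `42` is not of the form `a + b - c - d` with elements of `S` -/
def NoW (S : Finset ℕ) : Prop := ∀ a ∈ S, ∀ b ∈ S, ∀ c ∈ S, ∀ d ∈ S, a + b ≠ c + d + 42

/-- there are no two elements with difference `7`, `21`, `28` or `42` -/
def Sep (S : Finset ℕ) : Prop := ∀ x ∈ S, x + 7 ∉ S ∧ x + 21 ∉ S ∧ x + 28 ∉ S ∧ x + 42 ∉ S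

/-- Piece CNT (40 lines). Double counting of the pairs `(t, i)`, `t < N`, `i < l`, `t + q i ∈ S`: every `s ∈ S` with
`s ≥ q l` is counted `l` times (`t = s - q i < N`), and at most `q l` elements of `S` are smaller than `q l`. -/
def S_CNT : Prop := ∀ (S : Finset ℕ) (N q l : ℕ), S ⊆ range N →
  l * S.card ≤ (∑ t ∈ range N, cnt S q l t) + l * (q * l)

/-- Piece TWO (120 lines; `t_TWO (h : S_CNT) : S_TWO`). Let `D x` mean that the integer `x` is a difference of two elements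
of `S`. Then `D 0`, `D x → D (-x)`, and `NoW S` says: `D x → ¬ D (x + 42)`. So `¬ D 42` (from `D 0`), `¬ D 21` (from
`D (-21)`, `D 21`). Four cases.
(a) `¬ D 7`, `¬ D 14`: no two elements differ by `7, 14, 21`, so `cnt S 7 4 t ≤ 1` and by CNT `4 |S| ≤ N + 112`, which
contradicts `5 N ≤ 18 |S|`.
(b) `D 7`, `¬ D 14`: then `¬ D 35` (`-7 + 42 = 35`) and `¬ D 49` (`7 + 42 = 49`); of the multiples of `7` up to `49` only
`7` and `28` can be differences, so `cnt S 7 8 t ≤ 2` (three positions `i < j < k` in `[0, 7]` would have the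
differences `j - i, k - j, k - i` in `{1, 4}`). By CNT `8 |S| ≤ 2 N + 448`, a contradiction.
(c) `D 7`, `D 14`: then `¬ D 28` (`-14 + 42`), `¬ D 35`, `¬ D 49`, `¬ D 56` (`14 + 42`); so two positions in a window of
length `11` have a difference in `{1, 2, 9, 10}`, and `cnt S 7 11 t ≤ 3` (let `m` be the smallest position; the
others are in `{m+1, m+2, m+9, m+10}`; `m+9` excludes `m+1, m+2`, and `m+10` excludes `m+2`). By CNT
`11 |S| ≤ 3 N + 847`, a contradiction for `N ≥ 150000`.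
(d) `¬ D 7`, `D 14`: then `¬ D 28`, and this is the claim. -/
def S_TWO : Prop := ∀ (S : Finset ℕ) (N : ℕ), S ⊆ range N → 150000 ≤ N → 5 * N ≤ 18 * S.card → NoW S → Sep S

/-- Piece GOOD (80 lines; `t_GOOD (h : S_CNT) : S_GOOD`). By `Sep S` always `cnt S 7 7 t ≤ 2`: three positions `i < j < k` in
`[0, 6]` would have the differences `j - i, k - j, k - i` in `{2, 5}`. Let `B` be the set of the `t < N` with
`cnt S 7 7 t ≤ 1`. By CNT `7 |S| ≤ 2 N - |B| + 343`, so `18 |B| ≤ 36 N - 126 |S| + 6174 ≤ N + 6174`. If for every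
`t < N - 400` some `t + f`, `f ∈ F`, is in `B`, then `N - 400 ≤ 17 |B|`, so
`18 (N - 400) ≤ 17 (N + 6174)`, which is false for `N ≥ 150000`. -/
def S_GOOD : Prop := ∀ (S : Finset ℕ) (N : ℕ), S ⊆ range N → 150000 ≤ N → 5 * N ≤ 18 * S.card → Sep S →
  ∀ F : Finset ℕ, F.card ≤ 17 → (∀ f ∈ F, f ≤ 400) → ∃ t, ∀ f ∈ F, cnt S 7 7 (t + f) = 2

/-- Piece PAT (80 lines). `m = 7`: the two positions `i < j` in `[0, 6]` have the difference `2` or `5` (by `Sep S`), so
`φ = i` or `φ = j` works. For `m > 7`: if the windows at `t + 7 k` and `t + 7 (k + 1)` have two elements each, then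
`t + 7 k ∈ S ↔ t + 7 (k + 7) ∈ S` (compare the two counts); so the pattern is periodic modulo `7`. -/
def S_PAT : Prop := ∀ (S : Finset ℕ), Sep S → ∀ t m : ℕ, 7 ≤ m →
  (∀ k, k + 7 ≤ m → cnt S 7 7 (t + 7 * k) = 2) →
  ∃ φ : ZMod 7, ∀ i, i < m → (t + 7 * i ∈ S ↔ ((i : ZMod 7) = φ ∨ (i : ZMod 7) = φ + 2))

/-- Piece FIN (150 lines; `t_FIN (h1 : S_TWO) (h2 : S_GOOD) (h3 : S_PAT) : S_K42`). Assume `NoW S`; `D x` as in TWO, so
`D x → ¬ D (x + 42)`; `Sep S` by TWO. Write `C ψ j` for `(j : ZMod 7) ∈ {ψ, ψ + 2, ψ - 2}` and `Full n ψ` for: all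
integers `j` with `|j| ≤ 7` and `C ψ j` satisfy `D (n + 7 j)`.

(1) For every `n ≤ 301` there is `ψ` with `Full n ψ`: GOOD with `F = {0, 7, …, 49} ∪ {n, n + 7, …, n + 49}` (at most `16`
elements), and PAT with `m = 14` at `t` and at `t + n`, give `φ, φ'`; let `ψ = φ' - φ`. If `|j| ≤ 7` and `j ≡ ψ + b - a` with
`a, b ∈ {0, 2}`, there is `i` with `0 ≤ i ≤ 13`, `0 ≤ i + j ≤ 13`, `i ≡ φ + a` (at least `7` consecutive values of `i`
are allowed), so `t + 7 i ∈ S` and `t + n + 7 (i + j) ∈ S`.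
(2) `Full n ψ`, `Full (n + 7) ψ'` imply `ψ = ψ' + 1`: otherwise (finite check over `ψ, ψ'`, e.g. `decide`) there is `j` with
`-6 ≤ j ≤ 1` such that `j` and `j + 6` both satisfy `C ψ ·` or `C (ψ' + 1) ·`; for `j ∈ [-6, 8]` with `C (ψ' + 1) j` we have
`D (n + 7 + 7 (j - 1))`. So `D (n + 7 j)` and `D (n + 7 j + 42)`, a contradiction.
(3) `Full 0 ψ` implies `ψ = 0`: also `D 0` and `D (- 7 j)`; for `ψ ≠ 0` there is `j` with `j`, `j + 6` both in
`{j : |j| ≤ 7, C ψ j ∨ C ψ (-j) ∨ j = 0}` (finite check).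
(4) By (1), (2), (3) and induction: `Full (7 m) ψ` implies `ψ = - m` for `m ≤ 43`. By (1), (2) there is `n` in
`{1, 8, 15, …, 43}` with `Full n 3`.
(5) With this `n`: GOOD with `F = {k n, k n + 7 : k ≤ 7}` and PAT with `m = 8` at the points `t + k n` give `φ_k`, `k ≤ 7`.
`φ_(k+1) = φ_k + 3`: otherwise (finite check over `φ_k, φ_(k+1)`) there is `j`, `|j|, |j + 6| ≤ 7`, such that `j` and `j + 6` both are in
`{j : |j| ≤ 7, C 3 j} ∪ {i' - i : i, i' < 8, i ∈ {φ_k, φ_k + 2}, i' ∈ {φ_(k+1), φ_(k+1) + 2} mod 7}`; all these `j` satisfy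
`D (n + 7 j)`. So `φ_7 = φ_0 + 21 = φ_0`. By (1), (4) `Full (7 n) (-n)` and `-n = -1` in `ZMod 7`; again (finite check over
`φ`) there is `j` such that `j` and `j + 6` both are in
`{j : |j| ≤ 7, C (-1) j} ∪ {i' - i : i, i' < 8, i, i' ∈ {φ, φ + 2} mod 7}`; all these `j` satisfy `D (7 n + 7 j)`. Contradiction.
(All finite checks were verified by computer.) -/
def S_K42 : Prop := ∀ (S : Finset ℕ) (N : ℕ), S ⊆ range N → 150000 ≤ N → 5 * N ≤ 18 * S.card →
  ∃ a ∈ S, ∃ b ∈ S, ∃ c ∈ S, ∃ d ∈ S, a + b = c + d + 42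

end Pool.Agent.H40E9.K42
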