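import Mathlib
import Pool.Agent.H40E9.K42.Stm

/-!
# From the clique property to differences of two elements
-/

set_option autoImplicit false

namespace Pool.Agent.H40E9.K42

open Finset

/-- two rounds with the same large set -/
theorem rounds {R N : ℕ} (hN : 1 ≤ N) (hR : 18 * N * 2 ^ N < R) (F : Finset (Fin R × Fin N)) (hF : 5 * (R * N) ≤ 18 * F.card) :
    ∃ (r r' : Fin R) (S : Finset ℕ), r < r' ∧ S ⊆ range N ∧ 5 * N ≤ 18 * S.card ∧
      (∀ i ∈ S, ∃ hi : i < N, (r, ⟨i, hi⟩) ∈ F) ∧ ∀ i ∈ S, ∃ hi : i < N, (r', ⟨i, hi⟩) ∈ F := by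
  classical
  obtain ⟨J, hJ⟩ : ∃ J : Fin R → Finset (Fin N), J = fun r => univ.filter fun i => (r, i) ∈ F := ⟨_, rfl⟩
  have hsum : F.card = ∑ r, (J r).card := by
    rw [card_eq_sum_card_fiberwise (f := Prod.fst) (t := univ) (fun _ _ => mem_univ _)]
    refine sum_congr rfl fun r _ => ?_
    rw [hJ]
    refine card_bij (fun x _ => x.2) ?_ ?_ ?_
    · intro x hx
      rw [mem_filter] at hx ⊢
      obtain ⟨h1, h2⟩ := hx
      refine ⟨mem_univ _, ?_⟩
      rw [← h2]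
      exact h1
    · intro x hx y hy he
      rw [mem_filter] at hx hy
      exact Prod.ext (hx.2.trans hy.2.symm) he
    · intro i hi
      rw [mem_filter] at hi
      exact ⟨(r, i), mem_filter.2 ⟨hi.2, rfl⟩, rfl⟩
  obtain ⟨G, hG⟩ : ∃ G : Finset (Fin R), G = univ.filter fun r => 5 * N ≤ 18 * (J r).card := ⟨_, rfl⟩
  have hGc : 2 ^ N < G.card := by
    by_contra hcon
    push Not at hcon
    have h1 : 18 * F.card ≤ ∑ r : Fin R, ((if r ∈ G then 18 * N else 0) + (5 * N - 1)) := by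
      rw [hsum, mul_sum]
      refine sum_le_sum fun r _ => ?_
      split_ifs with hr
      · have h2 : (J r).card ≤ N := by
          have := card_le_univ (J r)
          rwa [Fintype.card_fin] at this
        have h3 : 18 * (J r).card ≤ 18 * N := Nat.mul_le_mul_left _ h2
        omega
      · rw [hG, mem_filter] at hr
        have h2 : ¬ 5 * N ≤ 18 * (J r).card := fun h => hr ⟨mem_univ _, h⟩
        omega
    rw [sum_add_distrib, sum_ite_mem, univ_inter, sum_const, sum_const, card_univ, Fintype.card_fin,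
      smul_eq_mul, smul_eq_mul] at h1
    have h2 : G.card * (18 * N) ≤ 2 ^ N * (18 * N) := Nat.mul_le_mul_right _ hcon
    have h3 : 2 ^ N * (18 * N) = 18 * N * 2 ^ N := by ring
    have h4 : R * (5 * N - 1) + R = 5 * (R * N) := by
      obtain ⟨n, rfl⟩ : ∃ n, N = n + 1 := ⟨N - 1, by omega⟩
      have : 5 * (n + 1) - 1 = 5 * n + 4 := by omega
      rw [this]
      ring
    omega
  obtain ⟨r, hr, r', hr', hne, he⟩ := exists_ne_map_eq_of_card_lt_of_maps_to
    (s := G) (t := (univ : Finset (Fin N)).powerset) (by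
      rw [card_powerset, card_univ, Fintype.card_fin]
      exact hGc) (f := J) (fun r _ => mem_coe.2 (mem_powerset.2 (subset_univ _)))
  have main : ∀ r r' : Fin R, r ∈ G → r < r' → J r = J r' → ∃ (r r' : Fin R) (S : Finset ℕ), r < r' ∧
      S ⊆ range N ∧ 5 * N ≤ 18 * S.card ∧
      (∀ i ∈ S, ∃ hi : i < N, (r, ⟨i, hi⟩) ∈ F) ∧ ∀ i ∈ S, ∃ hi : i < N, (r', ⟨i, hi⟩) ∈ F := by
    intro r r' hr hlt he
    refine ⟨r, r', (J r).image Fin.val, hlt, ?_, ?_, ?_, ?_⟩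
    · intro i hi
      obtain ⟨j, -, rfl⟩ := mem_image.1 hi
      exact mem_range.2 j.2
    · rw [card_image_of_injective _ Fin.val_injective]
      rw [hG, mem_filter] at hr
      exact hr.2
    · intro i hi
      obtain ⟨j, hj, rfl⟩ := mem_image.1 hi
      refine ⟨j.2, ?_⟩
      rw [hJ] at hj
      exact (mem_filter.1 hj).2
    · intro i hi
      obtain ⟨j, hj, rfl⟩ := mem_image.1 hi
      refine ⟨j.2, ?_⟩
      rw [he, hJ] at hj
      exact (mem_filter.1 hj).2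
  rcases lt_or_gt_of_ne hne with h1 | h1
  · exact main r r' hr h1 he
  · exact main r' r hr' h1 he.symm

theorem forty_two (hK : S_K42) : ∃ T : ℕ, 3 ≤ T ∧ ∀ {G : Type} [CommGroup G] (P : Set G),
    (∀ γ : Fin T → G, ∃ F : Finset (Fin T), (T : ℝ) ≤ 18 / 5 * (F.card : ℝ) ∧
      ∀ a ∈ F, ∀ b ∈ F, a < b → γ b * (γ a)⁻¹ ∈ P) →
    ∀ x : G, ∃ p ∈ P, ∃ q ∈ P, p = x ^ 42 * q := by
  classical
  obtain ⟨N, hN⟩ : ∃ N : ℕ, 150000 ≤ N := ⟨150000, le_rfl⟩
  obtain ⟨R, hR⟩ : ∃ R : ℕ, 18 * N * 2 ^ N < R := ⟨_, Nat.lt_succ_self _⟩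
  have hR1 : 1 ≤ R := by omega
  refine ⟨R * N, ?_, ?_⟩
  · have : 1 * N ≤ R * N := Nat.mul_le_mul_right _ hR1
    omega
  intro G _ P hP x
  obtain ⟨F, hF1, hF2⟩ := hP (fun t => x ^ ((finProdFinEquiv.symm t).2 : ℕ))
  obtain ⟨r, r', S, hlt, hS1, hS2, hS3, hS4⟩ := rounds (by omega) hR (F.image finProdFinEquiv.symm) (by
    rw [card_image_of_injective _ finProdFinEquiv.symm.injective]
    have h1 : (5 : ℝ) * (R * N : ℕ) ≤ 18 * F.card := by linarith
    exact_mod_cast h1)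
  obtain ⟨a, ha, b, hb, c, hc, d, hd, he⟩ := hK S N hS1 hN hS2
  have key : ∀ i ∈ S, ∀ j ∈ S, x ^ j * (x ^ i)⁻¹ ∈ P := by
    intro i hi j hj
    obtain ⟨hiN, hi'⟩ := hS3 i hi
    obtain ⟨hjN, hj'⟩ := hS4 j hj
    obtain ⟨u, hu, hue⟩ := mem_image.1 hi'
    obtain ⟨v, hv, hve⟩ := mem_image.1 hj'
    have hu' : u = finProdFinEquiv (r, ⟨i, hiN⟩) := by rw [← hue, Equiv.apply_symm_apply]
    have hv' : v = finProdFinEquiv (r', ⟨j, hjN⟩) := by rw [← hve, Equiv.apply_symm_apply]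
    have huv : u < v := by
      rw [hu', hv', Fin.lt_def, finProdFinEquiv_apply_val, finProdFinEquiv_apply_val]
      have h1 : (r : ℕ) + 1 ≤ r' := hlt
      have h2 : N * ((r : ℕ) + 1) ≤ N * r' := Nat.mul_le_mul_left _ h1
      have h3 : N * ((r : ℕ) + 1) = N * r + N := by ring
      simp only
      omega
    have h1 := hF2 u hu v hv huv
    simp only [hue, hve] at h1
    exact h1
  refine ⟨x ^ a * (x ^ c)⁻¹, key c hc a ha, x ^ d * (x ^ b)⁻¹, key b hb d hd, ?_⟩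
  rw [mul_inv_eq_iff_eq_mul, mul_assoc, mul_assoc, mul_comm (x ^ b)⁻¹, ← mul_assoc (x ^ 42),
    ← mul_assoc (x ^ 42 * x ^ d), eq_mul_inv_iff_mul_eq, ← pow_add, ← pow_add, ← pow_add, he]
  congr 1
  omega

end Pool.Agent.H40E9.K42
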