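import Mathlib
import Pool.Agent.H40E9.K42.Core
import Pool.Agent.H40E9.K42.Grp
import Pool.Agent.H40E9.CM.Pairs

/-!
# Commuting affine maps: quotients of two good maps
-/

set_option autoImplicit false

namespace Pool.Agent.H40E9.K42

open Finset Filter Algebra
open Pool.Agent.H40E9.CM

/-- the `42`-nd powers are quotients of two good maps -/
theorem main2 (hK : S_K42) : ∃ T : ℕ, 3 ≤ T ∧ ∀ {S : Submonoid Aff} (h : Sys S), Loc S T →
    ∀ x w : MM h, ∃ z₁ z₂ : MM h, GG h (w * z₁) ∧ GG h (w * z₂) ∧ x ^ 42 * (w * z₂) = w * z₁ := by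
  classical
  obtain ⟨T, hT, hgrp⟩ := forty_two hK
  refine ⟨T, hT, fun {S} h hloc x w => ?_⟩
  obtain ⟨g₀, hg₀⟩ := MM.order h
  obtain ⟨X, hX1, hX2⟩ := exists_seq g₀ hg₀
  obtain ⟨U, hU⟩ : ∃ U : Ultrafilter ℕ, (U : Filter ℕ) ≤ atTop := ⟨hyperfilter ℕ, Nat.hyperfilter_le_atTop⟩
  obtain ⟨p, hp, q, hq, he⟩ := hgrp (PP h X U)
    (fun γ => clique_PP h (by omega) hloc X hX1 hX2 U hU γ) (GrothendieckGroup.of x)
  have h1 := PP_div h X hX1 U hU hp w
  have h2 := PP_div h X hX1 U hU hq w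
  have hall : ∀ᶠ i in (U : Filter ℕ), ∀ᶠ j in (U : Filter ℕ),
      (∃ z : MM h, GG h (w * z) ∧ GrothendieckGroup.of (X j) * p =
        GrothendieckGroup.of (w * z) * GrothendieckGroup.of (X i)) ∧
      (∃ z : MM h, GG h (w * z) ∧ GrothendieckGroup.of (X j) * q =
        GrothendieckGroup.of (w * z) * GrothendieckGroup.of (X i)) := by
    filter_upwards [h1, h2] with i hi hi2
    filter_upwards [hi, hi2] with j hj hj2
    exact ⟨hj, hj2⟩
  obtain ⟨i, hi⟩ := hall.exists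
  obtain ⟨j, ⟨z₁, hz₁, e₁⟩, ⟨z₂, hz₂, e₂⟩⟩ := hi.exists
  refine ⟨z₁, z₂, hz₁, hz₂, ?_⟩
  have e4 : GrothendieckGroup.of (x ^ 42 * (w * z₂)) * GrothendieckGroup.of (X i) =
      GrothendieckGroup.of (w * z₁) * GrothendieckGroup.of (X i) := by
    rw [map_mul _ (x ^ 42), map_pow, mul_assoc, ← e₂, ← e₁, he]
    rw [mul_left_comm]
  exact GrothendieckGroup.of_injective (mul_right_cancel e4)

/-! ### Powers -/

theorem pow_d (g : Aff) (n : ℕ) : (g ^ n).d = g.d ^ n := by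
  induction n with
  | zero => rw [pow_zero, pow_zero]; rfl
  | succ n ih => rw [pow_succ, Aff.mul_d, ih, pow_succ]

theorem pow_a (g : Aff) (n : ℕ) : (g ^ n).a = g.a * ∑ i ∈ range n, g.d ^ i := by
  induction n with
  | zero => rw [pow_zero]; simp
  | succ n ih => rw [pow_succ, Aff.mul_a, ih, pow_d, sum_range_succ]; ring

theorem pow_loc (g : Aff) {p L : ℕ} (hp : p.Prime) (hpL : p ∣ L) (h1 : (p : ℤ) ∣ (g ^ L).d - 1) :
    (p : ℤ) ∣ (g ^ L).a := by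
  have : Fact p.Prime := ⟨hp⟩
  rw [pow_a]
  rw [pow_d] at h1
  apply Dvd.dvd.mul_left
  rw [← ZMod.intCast_zmod_eq_zero_iff_dvd] at h1 ⊢
  push_cast at h1 ⊢
  by_cases hd : ((g.d : ℤ) : ZMod p) = 1
  · rw [hd]
    simp only [one_pow, sum_const, card_range, nsmul_eq_mul, mul_one]
    exact (ZMod.natCast_eq_zero_iff _ _).2 hpL
  · have h2 : (((g.d : ℤ) : ZMod p) - 1) * ∑ i ∈ range L, ((g.d : ℤ) : ZMod p) ^ i = 0 := by
      rw [mul_comm, geom_sum_mul, h1]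
    rcases mul_eq_zero.1 h2 with h3 | h3
    · exact absurd (sub_eq_zero.1 h3) hd
    · exact h3

/-- the powers -/
def powS (S : Submonoid Aff) (hc : ∀ g ∈ S, ∀ k ∈ S, g * k = k * g) (L : ℕ) : Submonoid Aff where
  carrier := {g | ∃ k ∈ S, g = k ^ L}
  one_mem' := ⟨1, S.one_mem, (one_pow L).symm⟩
  mul_mem' := by
    rintro _ _ ⟨g, hg, rfl⟩ ⟨k, hk, rfl⟩
    have h1 : Commute g k := hc g hg k hk
    exact ⟨g * k, S.mul_mem hg hk, (h1.mul_pow L).symm⟩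

theorem mem_powS {S : Submonoid Aff} {hc : ∀ g ∈ S, ∀ k ∈ S, g * k = k * g} {L : ℕ} {g : Aff} :
    g ∈ powS S hc L ↔ ∃ k ∈ S, g = k ^ L := Iff.rfl

/-- **the theorem for sets of pairs** -/
theorem pairs (hK : S_K42) : ∃ M : ℕ, 1 ≤ M ∧ ∀ Z : Set (ℤ × ℤ), (∀ g ∈ Z, Adm g) →
    (∀ g ∈ Z, ∀ k ∈ Z, cp g k = cp k g) → (∀ g ∈ Z, ∀ k ∈ Z, cp g k ∈ Z) → (∃ g ∈ Z, g ≠ (0, 1)) →
    ∀ k ∈ Z, ∀ w ∈ Z, ∃ z₁ ∈ Z, ∃ z₂ ∈ Z, Good (cp w z₁) ∧ Good (cp w z₂) ∧
      cp ((cp k)^[M] (0, 1)) (cp w z₂) = cp w z₁ := by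
  classical
  obtain ⟨T, hT, hmain⟩ := main2 hK
  set L : ℕ := T.factorial with hL
  have hL1 : 1 ≤ L := Nat.succ_le_of_lt (Nat.factorial_pos T)
  refine ⟨L * 42, by omega, fun Z hZ hcomm hcl hne k hk w hw => ?_⟩
  -- all maps
  have hS : ∀ g ∈ subm Z hcl, g = 1 ∨ Adm (g.a, g.d) := by
    intro g hg
    rcases mem_subm.1 hg with h1 | h1
    · exact Or.inl h1
    · exact Or.inr (hZ _ h1)
  have hpos : ∀ g ∈ subm Z hcl, 1 ≤ g.d := by
    intro g hg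
    rcases hS g hg with rfl | h1
    · exact le_refl _
    · exact h1.1
  have hcop : ∀ g ∈ subm Z hcl, IsCoprime g.a g.d := by
    intro g hg
    rcases hS g hg with rfl | h1
    · exact isCoprime_one_right
    · exact Int.isCoprime_iff_gcd_eq_one.2 h1.2.1
  have htwo : ∀ g ∈ subm Z hcl, (2 : ℤ) ∣ g.a * g.d := by
    intro g hg
    rcases hS g hg with rfl | h1
    · exact ⟨0, rfl⟩
    · exact h1.2.2
  have hc : ∀ g ∈ subm Z hcl, ∀ k ∈ subm Z hcl, g * k = k * g := by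
    intro g hg k hk
    rw [mem_subm] at hg hk
    rcases hg with rfl | hg
    · rw [one_mul, mul_one]
    rcases hk with rfl | hk
    · rw [one_mul, mul_one]
    have h1 := hcomm _ hg _ hk
    exact Aff.ext (congrArg Prod.fst h1) (congrArg Prod.snd h1)
  have hsub : ∀ g ∈ powS (subm Z hcl) hc L, g ∈ subm Z hcl := by
    intro g hg
    obtain ⟨k, hk, rfl⟩ := mem_powS.1 hg
    exact (subm Z hcl).pow_mem hk L
  have hloc : Loc (powS (subm Z hcl) hc L) T := by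
    intro p hp hpT g hg hd
    obtain ⟨k, -, rfl⟩ := mem_powS.1 hg
    exact pow_loc k hp ((Nat.Prime.dvd_factorial hp).2 hpT) hd
  have hsys : Sys (powS (subm Z hcl) hc L) :=
    { comm := fun g hg k hk => hc g (hsub g hg) k (hsub k hk)
      pos := fun g hg => hpos g (hsub g hg)
      cop := fun g hg => hcop g (hsub g hg)
      two := fun g hg => htwo g (hsub g hg)
      three := fun g hg h3 => hloc 3 Nat.prime_three hT g hg h3
      ne := by
        obtain ⟨g, hg, hg1⟩ := hne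
        refine ⟨(⟨g.1, g.2⟩ : Aff) ^ L, ⟨_, Or.inr hg, rfl⟩, fun he => hg1 ?_⟩
        have h1 : g.2 ^ L = 1 := by
          have := congrArg Aff.d he
          rw [pow_d] at this
          exact this
        have h2 : 1 ≤ g.2 := (hZ g hg).1
        have h3 : g.2 = 1 := by
          rcases eq_or_lt_of_le h2 with h3 | h3
          · exact h3.symm
          · exfalso
            have h4 : 1 < g.2 ^ L := one_lt_pow₀ h3 (by omega)
            omega
        have h4 : g.1 * (L : ℤ) = 0 := by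
          have := congrArg Aff.a he
          rw [pow_a] at this
          simp only [h3, one_pow, sum_const, card_range, nsmul_eq_mul, mul_one] at this
          exact this
        have h5 : g.1 = 0 := by
          rcases mul_eq_zero.1 h4 with h5 | h5
          · exact h5
          · omega
        exact Prod.ext h5 h3 }
  have hmem : ∀ g : ℤ × ℤ, g ∈ Z → (⟨g.1, g.2⟩ : Aff) ∈ subm Z hcl := fun g hg => Or.inr hg
  obtain ⟨x, hx⟩ : ∃ x : MM hsys, x.1 = (⟨k.1, k.2⟩ : Aff) ^ L := ⟨⟨_, ⟨_, hmem k hk, rfl⟩⟩, rfl⟩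
  obtain ⟨v, hv⟩ : ∃ v : MM hsys, v.1 = (⟨w.1, w.2⟩ : Aff) ^ L := ⟨⟨_, ⟨_, hmem w hw, rfl⟩⟩, rfl⟩
  obtain ⟨y₁, y₂, hy₁, hy₂, he⟩ := hmain hsys hloc x (v * v)
  -- membership
  obtain ⟨n, hn⟩ : ∃ n, L = n + 1 := ⟨L - 1, by omega⟩
  -- `v * v * y = w * z` with `z ∈ Z`
  have hz : ∀ y : MM hsys, ∃ z ∈ Z, ((v * v * y).1.a, (v * v * y).1.d) = cp w z := by
    intro y
    have h1 : (⟨w.1, w.2⟩ : Aff) * ((⟨w.1, w.2⟩ : Aff) ^ n * ((⟨w.1, w.2⟩ : Aff) ^ L * y.1)) = (v * v * y).1 := by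
      rw [MM.val_mul, MM.val_mul, hv, ← mul_assoc, ← pow_succ', ← hn, ← mul_assoc]
    have h2 : ∀ r : ℕ, ∀ u ∈ subm Z hcl, (((⟨w.1, w.2⟩ : Aff) ^ (r + 1) * u).a, ((⟨w.1, w.2⟩ : Aff) ^ (r + 1) * u).d) ∈ Z := by
      intro r
      induction r with
      | zero =>
        intro u hu
        rw [zero_add, pow_one]
        rcases mem_subm.1 hu with rfl | hu
        · rw [mul_one]; exact hw
        · exact hcl _ hw _ hu
      | succ r ih =>
        intro u hu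
        rw [pow_succ, mul_assoc]
        exact ih _ ((subm Z hcl).mul_mem (hmem w hw) hu)
    have h3 := h2 n y.1 (hsub _ y.2)
    rw [← hn] at h3
    refine ⟨((((⟨w.1, w.2⟩ : Aff) ^ n * ((⟨w.1, w.2⟩ : Aff) ^ L * y.1))).a,
      (((⟨w.1, w.2⟩ : Aff) ^ n * ((⟨w.1, w.2⟩ : Aff) ^ L * y.1))).d), ?_, ?_⟩
    · rcases Nat.eq_zero_or_pos n with h0 | h0
      · rw [h0, pow_zero, one_mul]
        exact h3
      · obtain ⟨m, hm⟩ : ∃ m, n = m + 1 := ⟨n - 1, by omega⟩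
        rw [hm]
        exact h2 m _ ((subm Z hcl).mul_mem ((subm Z hcl).pow_mem (hmem w hw) L) (hsub _ y.2))
    · rw [← h1]
      rfl
  obtain ⟨z₁, hz₁, e₁⟩ := hz y₁
  obtain ⟨z₂, hz₂, e₂⟩ := hz y₂
  refine ⟨z₁, hz₁, z₂, hz₂, ?_, ?_, ?_⟩
  · rw [← e₁]; exact hy₁
  · rw [← e₂]; exact hy₂
  · have h6 : ∀ n : ℕ, ((((⟨k.1, k.2⟩ : Aff) ^ n)).a, (((⟨k.1, k.2⟩ : Aff) ^ n)).d) = (cp k)^[n] (0, 1) := by
      intro n
      induction n with
      | zero => rfl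
      | succ n ih =>
        rw [pow_succ', Function.iterate_succ_apply', ← ih]
        rfl
    have h7 : ∀ (u : MM hsys) (m : ℕ), (u ^ m).1 = u.1 ^ m := by
      intro u m
      induction m with
      | zero => rfl
      | succ m ih => rw [pow_succ, MM.val_mul, ih, pow_succ]
    have h8 : (x ^ 42 * (v * v * y₂)).1 = (v * v * y₁).1 := by rw [he]
    rw [MM.val_mul, h7, hx, ← pow_mul] at h8
    rw [← h6, ← e₂, ← e₁, ← h8]
    rfl

/-- the set of the admissible maps which commute with `f` -/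
theorem commuting (f : ℤ × ℤ) (hf : Adm f) (hf1 : f ≠ (0, 1)) :
    (∀ g ∈ {g : ℤ × ℤ | Adm g ∧ cp f g = cp g f}, Adm g) ∧
    (∀ g ∈ {g : ℤ × ℤ | Adm g ∧ cp f g = cp g f}, ∀ k ∈ {g : ℤ × ℤ | Adm g ∧ cp f g = cp g f}, cp g k = cp k g) ∧
    (∀ g ∈ {g : ℤ × ℤ | Adm g ∧ cp f g = cp g f}, ∀ k ∈ {g : ℤ × ℤ | Adm g ∧ cp f g = cp g f},
      cp g k ∈ {g : ℤ × ℤ | Adm g ∧ cp f g = cp g f}) ∧
    ∃ g ∈ {g : ℤ × ℤ | Adm g ∧ cp f g = cp g f}, g ≠ (0, 1) := by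
  obtain ⟨a, d⟩ := f
  obtain ⟨hd, hg, h2⟩ := hf
  simp only at hd hg h2
  have ha : a ≠ 0 := by
    rintro rfl
    rw [Int.gcd_zero_left] at hg
    apply hf1
    have : d = 1 := by omega
    rw [this]
  have hcf : ∀ g ∈ {g : ℤ × ℤ | Adm g ∧ cp (a, d) g = cp g (a, d)}, g.1 * (d - 1) = a * (g.2 - 1) := by
    rintro ⟨a', d'⟩ ⟨-, h3⟩
    have h4 : a + d * a' = a' + d' * a := congrArg Prod.fst h3
    simp only
    linear_combination h4
  have hcomm : ∀ g ∈ {g : ℤ × ℤ | Adm g ∧ cp (a, d) g = cp g (a, d)},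
      ∀ k ∈ {g : ℤ × ℤ | Adm g ∧ cp (a, d) g = cp g (a, d)}, cp g k = cp k g := by
    intro g hg k hk
    have e1 := hcf g hg
    have e2 := hcf k hk
    have e3 : g.1 + g.2 * k.1 = k.1 + k.2 * g.1 := by
      by_cases hd1 : d = 1
      · rw [hd1, sub_self, mul_zero] at e1 e2
        have e4 : g.2 - 1 = 0 := (mul_eq_zero.1 e1.symm).resolve_left ha
        have e5 : k.2 - 1 = 0 := (mul_eq_zero.1 e2.symm).resolve_left ha
        have e6 : g.2 = 1 := by omega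
        have e7 : k.2 = 1 := by omega
        rw [e6, e7]; ring
      · have e4 : (d - 1) ≠ 0 := by omega
        apply mul_right_cancel₀ e4
        linear_combination (1 - k.2) * e1 - (1 - g.2) * e2
    exact Prod.ext e3 (mul_comm _ _)
  refine ⟨fun g hg => hg.1, hcomm, ?_, (a, d), ⟨⟨hd, hg, h2⟩, rfl⟩, hf1⟩
  intro g hg k hk
  have hgk := hcomm g hg k hk
  have hgk1 : g.1 + g.2 * k.1 = k.1 + k.2 * g.1 := congrArg Prod.fst hgk
  obtain ⟨⟨g1, g2, g3⟩, g5⟩ := hg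
  obtain ⟨⟨k1, k2, k3⟩, k5⟩ := hk
  refine ⟨⟨?_, ?_, ?_⟩, ?_⟩
  · show 1 ≤ g.2 * k.2
    nlinarith
  · exact gcd_aux g2 k2 hgk1
  · show 2 ∣ (g.1 + g.2 * k.1) * (g.2 * k.2)
    rcases (Int.prime_two.dvd_mul).1 g3 with h3 | h3
    · rcases (Int.prime_two.dvd_mul).1 k3 with h4 | h4
      · exact Dvd.dvd.mul_right (dvd_add h3 (h4.mul_left _)) _
      · exact Dvd.dvd.mul_left (h4.mul_left _) _
    · exact Dvd.dvd.mul_left (h3.mul_right _) _
  · show cp (a, d) (cp g k) = cp (cp g k) (a, d)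
    have e1 : a + d * g.1 = g.1 + g.2 * a := congrArg Prod.fst g5
    have e2 : a + d * k.1 = k.1 + k.2 * a := congrArg Prod.fst k5
    refine Prod.ext ?_ ?_
    · show a + d * (g.1 + g.2 * k.1) = g.1 + g.2 * k.1 + g.2 * k.2 * a
      linear_combination e1 + g.2 * e2
    · show d * (g.2 * k.2) = g.2 * k.2 * d
      ring

end Pool.Agent.H40E9.K42
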